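import Pool.Agent.Lib.MP_4d246d_lc.EB.AxFin
import Pool.Agent.Lib.MP_4d246d_lc.EB.HyFin
import Pool.Agent.Lib.MP_4d246d_lc.Flw.Fin
import Pool.Agent.Lib.MP_4d246d_lc.Tc.Fin
import Pool.Agent.Lib.MP_4d246d_lc.CR.Shape
import Pool.Agent.Lib.MP_4d246d_lc.CR.Cls
import Pool.Agent.Lib.MP_4d246d_lc.CR.LeoFin

/-!
# One optimal pivot rule that sees neither `b` nor `c`, and Question 1

Linear programs `max c x`, `A x ≤ b`, `x ≥ 0` (`m` rows, `n` variables) with a rational matrix `A`
and REAL `b` and `c` (`RLP m n`). The *name* of a point is the list of the constraints that are
tight at it (`m + n` Booleans), the name of an edge is the list of the constraints that are tight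
along it. `D.mat` is the matrix of the program `D` (`n` and the list of the rows), `D.size` its bit
length.

A *blind rule* (`BlindRule`) is one function. It gets the matrix `A`, the name of the starting
vertex and the answers received so far, and it proposes an edge of the current vertex by its name,
or nothing. It never sees `b`, `c`, or a coordinate or an objective value of a vertex.

* If the proposal is a bounded edge of the current vertex along which the objective increases, it
  is followed, and the answer is the name of its other end.
* If it is an unbounded edge along which the objective increases, the play is over.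
* Otherwise an adversary answers with the name of the other end of some bounded edge of the current
  vertex along which the objective increases, and the current vertex does not change; if there is
  no such edge, the play is over.

`Solves ρ D B`: from each starting vertex of the program `D` and for all adversaries there are at
most `B` answers (refusals included), and when the play is over, the current vertex is optimal or
has an unbounded edge along which the objective increases. `ρ.Poly`: the rule is computed in time
polynomial in the length of its input (matrix, name, answers so far).
`pivotBound d k = 2 ^ s * C(d + s, s)` with `s = ⌊log₂ k⌋ + 1`.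

Programs on which the rule is polynomial (without any hypothesis):
* `flowProg tail head b u cost`: maximise `∑ cost_a x_a` over the flows `x` in the digraph with the
  arcs `a` from `tail a` to `head a`: outflow minus inflow at each node `v` is `b_v`, and
  `0 ≤ x_a ≤ u_a`; all `b`, `u`, `cost` real;
* `D'.ZeroOne`: the polyhedron is contained in the cube and its vertices are 0/1 vectors;
* `D'.Ratio k`: the polyhedron is bounded, and there is a number `g > 0` such that each coordinate
  and each slack of each vertex is `0` or between `g` and `k g`;
* `D.SameNames D'`: the programs have the same matrix and the same set of names of vertices (their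
  right hand sides may be very different, and nothing is said on the objectives);
* `eqProg A b c`: `max c x`, `A x = b`, `x ≥ 0` (each equation is written as two inequalities);
  `Leontief A`: each column of `A` has at most one positive entry (with `b > 0` these are the
  Leontief programs; they include the linear programs of Markov decision processes).

An `Engine` is a version of the simplex method (it sees all of `A`, `b`, `c`) that makes one pivot
at a time, in polynomial time, with a memory of polynomial size, the number of pivots being
arbitrary; `W.Bound X L K`: it makes at most `K` pivots on the inputs with the matrix `X` and bit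
length at most `L`. `Bdd A`: a nonnegative combination of the rows of `A` has positive entries (so
`A x ≤ b`, `x ≥ 0` is bounded for all `b`). `plusM X` is the matrix `X` with one more row, all of
whose entries are `1`.

* `PolySimplex`: Question 1 has a positive answer.
* `SimplexOn Q`: Question 1 restricted to the class `Q` of inputs has a positive answer (the method
  sees everything, and it has to be correct and polynomial on the inputs of the class only).

Three families of programs; in each of them the matrix depends only on the dimensions, on the
digraph, or on the hypergraph, so a blind rule sees only these and the supports of vertices: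
* `assign N cost`: maximise `∑ cost_q x_q` over the nonnegative `N × N × N` arrays all of whose
  `3 N` slice sums are `1` (a slice: one of the three indices is fixed; this is the linear program
  of the axial three-dimensional assignment problem); `IsAssign`: these with rational costs;
* `unitFlow tail head s₁ t₁ s₂ t₂ d₁ d₂ e`: in a digraph with unit capacities, over the pairs of a
  flow of value `d₁` from `s₁` to `t₁` and a flow of value `d₂` from `s₂` to `t₂` (nonnegative, with
  the sum at most `1` on each arc) maximise the second flow on the arc `e`; `Layered tail head`: the
  nodes are on four levels, and each arc leads from a level to a higher one; `IsUnitFlow`: these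
  programs for the layered digraphs;
* `hyper f e`: for a hypergraph whose vertices are in three parts with `N` vertices each, the `q`-th
  edge consisting of one vertex `f k q` of each part `k`, maximise `x_e` over the `x ≥ 0` with sum
  `1` over the edges that contain any given vertex (fractional perfect matchings); `Cubic f`: the
  edges are distinct, and each vertex is in at most three of them; `IsHyper`: these programs for
  the cubic hypergraphs.
-/

namespace Pool.Agent.Results.MP_4d246d_lc.BlindSimplex

open Pool.Agent.Simplex Pool.Agent.Simplex.EB Pool.Agent.Lib.PolyTime Turing

/-- **There is one polynomial-time pivot rule `U` that sees neither `b` nor `c`, is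
quasi-polynomial, and is optimal up to polynomials among all versions of the simplex method.** -/
theorem result : ∃ U : BlindRule, U.Poly ∧
    -- the number of answers on all programs
    (∃ P : Polynomial ℕ, ∀ (m n : ℕ) (D : RLP m n),
      Solves U D (P.eval D.size * pivotBound (min n (m + 2)) (min (m + n + 1) (2 * m + 3)))) ∧
    -- `U` is polynomial on minimum cost flow programs, in the numbers of nodes and arcs
    (∃ P : Polynomial ℕ, ∀ (N M : ℕ) (tail head : Fin M → Fin N) (b : Fin N → ℝ)
      (u cost : Fin M → ℝ), (∀ a, tail a ≠ head a) →
        Solves U (Flw.flowProg tail head b u cost) (P.eval (N + M))) ∧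
    -- `U` is polynomial on the polyhedra with the vertex names of a 0/1 polytope, or of a polytope
    -- with bounded ratio of slacks
    (∃ P : Polynomial ℕ, ∀ (m n : ℕ) (D D' : RLP m n), D.SameNames D' →
      (D'.ZeroOne → Solves U D (P.eval D.size)) ∧
      ∀ k, D'.Ratio k → Solves U D (P.eval (D.size + k))) ∧
    -- `U` is polynomial on Leontief programs
    (∃ P : Polynomial ℕ, ∀ (M n : ℕ) (A : Fin M → Fin n → ℚ) (b : Fin M → ℝ) (c : Fin n → ℝ),
      Leontief A → (∀ i, 0 < b i) → Solves U (eqProg A b c) (P.eval (eqProg A b c).size)) ∧
    -- `U` is at least as good as every blind rule computed in polynomial time, on every program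
    (∀ ρ : BlindRule, ρ.Poly → ∃ Q : Polynomial ℕ, ∀ (m n : ℕ) (D : RLP m n) (B : ℕ),
      Solves ρ D B → Solves U D (Q.eval (D.size + B))) ∧
    -- `U` is at least as good as every version of the simplex method
    (∀ W : Engine, ∃ Q : Polynomial ℕ, ∀ (m n : ℕ) (D : RLP m n) (K : ℕ),
      Bdd D.A ∧ W.Bound D.mat (Q.eval D.size) K ∨ W.Bound (plusM D.mat) (Q.eval D.size) K →
        Solves U D (Q.eval (D.size + K))) ∧
    -- for each class of matrices recognised in polynomial time all of which are bounded (or stay in
    -- the class if a row of ones is added), Question 1 for this class is the question whether `U`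
    -- is polynomial on it
    (∀ d : ℕ × List (List ℚ) → Bool,
      Nonempty (TM2ComputableInPolyTime (code (α := ℕ × List (List ℚ))) (code (α := Bool)) d) →
      (∀ (m n : ℕ) (D : RLP m n), d D.mat = true → Bdd D.A ∨ d (plusM D.mat) = true) →
      (SimplexOn (fun I => d (I.n, List.ofFn fun i => List.ofFn (I.lp.A i)) = true) ↔
        ∃ P : Polynomial ℕ, ∀ (m n : ℕ) (D : RLP m n), d D.mat = true →
          Solves U D (P.eval D.size))) ∧
    -- the following are equivalent: Question 1 has a positive answer; `U` is polynomial; `U` is
    -- polynomial on each of the three families (the first with real costs); Question 1 restricted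
    -- to each of the three families (the first with rational costs) has a positive answer
    List.TFAE [PolySimplex,
      ∃ P : Polynomial ℕ, ∀ (m n : ℕ) (D : RLP m n), Solves U D (P.eval D.size),
      ∃ P : Polynomial ℕ, ∀ (N : ℕ) (cost : Fin (N * (N * N)) → ℝ),
        Solves U (assign N cost) (P.eval N),
      ∃ P : Polynomial ℕ, ∀ (N M : ℕ) (tail head : Fin M → Fin N) (s₁ t₁ s₂ t₂ : Fin N)
        (d₁ d₂ : ℕ) (e : Fin M), Tc.Layered tail head →
          Solves U (Tc.unitFlow tail head s₁ t₁ s₂ t₂ d₁ d₂ e) (P.eval (N + M)),
      ∃ P : Polynomial ℕ, ∀ (N M : ℕ) (f : Fin 3 → Fin M → Fin N) (e : Fin M), Cubic f →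
        Solves U (hyper f e) (P.eval (N + M)),
      SimplexOn IsAssign, SimplexOn Tc.IsUnitFlow, SimplexOn IsHyper] := by
  obtain ⟨U, hp, hU, hP⟩ := exists_optimal
  refine ⟨U, hp, hP, Flw.optimal_flow hU, hU.shape, hU.leontief, hU,
    hU.engine_or, hU.class_iff hp, ?_⟩
  tfae_have 1 ↔ 2 := hU.poly_iff hp
  tfae_have 1 ↔ 3 := hU.assign_iff hp
  tfae_have 1 ↔ 4 := Tc.unitFlow_iff hU hp
  tfae_have 1 ↔ 5 := hU.hyper_iff hp
  tfae_have 1 ↔ 6 := polySimplex_iff_assign
  tfae_have 1 ↔ 7 := Tc.polySimplex_iff_unitFlow
  tfae_have 1 ↔ 8 := polySimplex_iff_hyper
  tfae_finish

end Pool.Agent.Results.MP_4d246d_lc.BlindSimplex
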