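import Pool.Agent.Lib.MP_4d246d_lc.QM.FinalB
import Pool.Agent.Lib.MP_4d246d_lc.QM.WidthDat
import Pool.Agent.Lib.MP_4d246d_lc.QM.Small

/-!
# A quasi-polynomial version of the simplex method, polynomial for small circuit width

There is a deterministic version of the simplex method (a rule that receives a linear program
`max c x`, `A x ≤ b`, `x ≥ 0` with rational data and a vertex, and moves along improving edges
until it reaches an optimal vertex or a vertex with an unbounded improving edge) such that

* on every program with `m` rows and `n` variables it makes at most `2 B + 1` pivots, where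
  `B = pivotBound d k = 2 ^ s * C(d + s, s)`, `d = min n (m + 1)`, `k = min (m + n) (2 m + 1)`,
  `s = ⌊log₂ k⌋ + 1`;
* if the circuit width of the program is at most `(d, k)`, that is, if for every vertex `x` and
  every improving feasible elementary direction `y` at `x` the smallest face containing `x` and
  `x + ε y` (`ε > 0` small) has dimension at most `d` and at most `k` of the constraints are not
  constant on it, then it makes at most `Q L * pivotBound d k` pivots, `Q` a polynomial and `L`
  the bit length of the input;
* this applies, with `d` and `k` of the order of `(s + t + 1) * ∏ (2 r_l + 1)`, when the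
  constraint matrix has a nested block structure: after deleting at most `r_0` rows it splits
  into blocks, in each of them after deleting at most `r_1` rows it splits further, and so on,
  and each block of the last level has at most `s` rows, or at most `s` variables and at most
  `t` rows;
* the whole computation takes time at most `P L * C(L + s, s)`, `s = ⌊log₂ L⌋ + 1`, in the bit
  model, where `P` is a polynomial;
* for every constant `C` its total time is polynomial on the programs of circuit width `(d, k)`
  with `d ≤ C log L` or `log d * log k ≤ C log L`; this includes the programs with a nested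
  block structure such that `(s + 1) * ∏ (2 r_l + 1)` is at most `C log L`, or at most
  `2 ^ √(C log L)` if all blocks of the last level have at most `s` rows;
* each single pivot is computed in polynomial time from a memory of polynomial size.
-/

namespace Pool.Agent.Results.MP_4d246d_lc.CircuitWidthSimplex

open Pool.Agent.Simplex Pool.Agent.Lib.PolyTime Turing

/-- **A quasi-polynomial version of the simplex method that is polynomial on programs of small
circuit width.** -/
theorem result :
    ∃ (N : Input → ℕ) (x : (I : Input) → ℕ → Fin I.n → ℚ) (s : Input → Verdict),
      -- the rule is a version of the simplex method; the number of pivots on all programs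
      (∀ I : Input, SimplexRun I (N I) (x I) (s I) ∧
        N I ≤ 2 * pivotBound (min I.n (I.m + 1)) (min (I.m + I.n) (2 * I.m + 1)) + 1) ∧
      -- the number of pivots on programs of given circuit width or with nested block structure
      (∃ Q : Polynomial ℕ, ∀ I : Input,
        (∀ d k, I.lp.Width d k → N I ≤ Q.eval (code I).length * pivotBound d k) ∧
        ∀ rs s t, I.lp.Nested rs s t → N I ≤ Q.eval (code I).length *
          pivotBound (QLP.branch rs * (2 * s + 1)) (QLP.branch rs * (3 * s + t + 2))) ∧
      -- total running time in the bit model, output included
      (∃ (P : Polynomial ℕ) (M : TM2ComputableInTime (code (α := Input))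
          (code (α := List (List ℚ × Verdict))) (fun I => protocol (N I) (x I) (s I))),
        ∀ L, M.time L ≤ P.eval L * (L + Nat.size L).choose (Nat.size L)) ∧
      -- polynomial total time for programs of small circuit width
      (∀ C : ℕ, Nonempty (TM2ComputableInPolyTime
        (fun I : {I : Input // I.lp.SmallWidth C (code I).length ∨
          I.lp.FewLinks C (code I).length} => code I.1)
        (code (α := List (List ℚ × Verdict)))
        (fun I => protocol (N I.1) (x I.1) (s I.1)))) ∧
      -- polynomial time and memory for each pivot
      ∃ (σ : Type) (_ : TEnc σ) (init : Input → σ) (next : σ → σ)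
          (report : σ → List ℚ × Verdict) (Q : Polynomial ℕ),
        Nonempty (TM2ComputableInPolyTime (code (α := Input)) (code (α := σ)) init) ∧
        Nonempty (TM2ComputableInPolyTime (code (α := σ)) (code (α := σ)) next) ∧
        Nonempty (TM2ComputableInPolyTime (code (α := σ))
          (code (α := List ℚ × Verdict)) report) ∧
        ∀ I : Input, (∀ t, (code (next^[t] (init I))).length ≤ Q.eval (code I).length) ∧
          ∀ t ≤ N I, report (next^[t] (init I)) = reportAt (N I) (x I) (s I) t := by
  obtain ⟨Q, hQ⟩ := QP.numPB_width
  have hwidth : ∀ (I : Input) (d k : ℕ), I.lp.Width d k →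
      QP.numPB I ≤ Q.eval (code I).length * pivotBound d k := by
    intro I d k h
    have h1 := hQ I d k fun x _ hx ht => QP.faceJ_width I h hx ht
    refine h1.trans (Nat.mul_le_mul_right _ (peval_mono Q ?_))
    rw [length_wd]
    omega
  refine ⟨QP.numPB, QP.xb, fun I => (QP.reportB (QP.nextB^[QP.numPB I] (QP.initB I))).2,
    fun I => ⟨QP.simplexRunB I, QP.numPB_le I⟩,
    ⟨Q, fun I => ⟨hwidth I, fun rs s t h => hwidth I _ _ h.width⟩⟩, ?_, fun C => ?_,
    QP.stepsB⟩
  · obtain ⟨P, M, hM⟩ := QP.machineB
    revert M
    rw [show QP.runOfB = fun I => protocol (QP.numPB I) (QP.xb I)
      (QP.reportB (QP.nextB^[QP.numPB I] (QP.initB I))).2 from funext QP.runOfB_eq]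
    intro M hM
    exact ⟨P, M, hM⟩
  · have h2 := QP.machineB_of (fun I => I.lp.SmallWidth C (code I).length ∨
        I.lp.FewLinks C (code I).length)
      (Q * (2 * Polynomial.X + 1) ^ (3 * (9 * C) + 3)) (fun I hI => by
        have hI' : I.lp.SmallWidth (9 * C) (code I).length := by
          rcases hI with ⟨d, k, h3, h4⟩ | h3
          · refine ⟨d, k, h3, ?_⟩
            have h5 : C * Nat.size (code I).length ≤ 9 * C * Nat.size (code I).length :=
              Nat.mul_le_mul_right _ (by omega)
            rcases h4 with h4 | h4
            · exact Or.inl (h4.trans h5)
            · exact Or.inr (h4.trans h5)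
          · exact h3.smallWidth
        have hL : I.m + I.n ≤ (code I).length := by
          have h3 := QP.dim_le_sz I
          rw [length_wd]
          omega
        obtain ⟨d, k, h3, h4⟩ := hI'.bound hL
        refine (hwidth I d k h3).trans ?_
        simp only [Polynomial.eval_mul, Polynomial.eval_pow, Polynomial.eval_add,
          Polynomial.eval_X, Polynomial.eval_one, Polynomial.eval_ofNat]
        exact Nat.mul_le_mul_left _ h4)
    rw [show (fun I : {I : Input // I.lp.SmallWidth C (code I).length ∨
        I.lp.FewLinks C (code I).length} => QP.runOfB I.1) = fun I => protocol (QP.numPB I.1)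
        (QP.xb I.1) (QP.reportB (QP.nextB^[QP.numPB I.1] (QP.initB I.1))).2
      from funext fun I => QP.runOfB_eq I.1] at h2
    exact h2

end Pool.Agent.Results.MP_4d246d_lc.CircuitWidthSimplex
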