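import Pool.Agent.Lib.MP_4d246d_lc.Sq.Final

/-!
# Every deterministic pivot rule needs `2 ^ (√n / 32)` pivots on abstract objective functions

Let `n ≥ 1`, and let a deterministic pivot rule with unlimited memory be given. It is an arbitrary
function: at each visited vertex of the `n`-cube it picks one of the improving directions, depending
on all vertices visited so far, their values, and the values of all their improving neighbours (so it
may be the largest improvement rule, for example). Then for each start vertex there is an abstract
objective function on the `n`-cube on which the rule makes at least `2 ^ (√n / 32)` pivots.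
-/

namespace Pool.Agent.Results.MP_4d246d_lc.DeterministicRules

open Pool.Agent.MP4d246d.Gain

theorem result (n : ℕ) (hn : 1 ≤ n) (ρ : PivotRule n) (v₀ : Vertex n) :
    ∃ f : Vertex n → ℝ, AbstractObjective f ∧
      ∀ N : ℕ, (N : ℝ) ≤ 2 ^ (Real.sqrt n / 32) → (run ρ f v₀ N).length = N + 1 :=
  Sq.main hn ρ v₀

end Pool.Agent.Results.MP_4d246d_lc.DeterministicRules
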