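import Pool.Agent.Lib.MP_4d246d_lc.Rand.Final

/-!
# Every randomised pivot rule needs superpolynomially many pivots on an abstract cube
-/

namespace Pool.Agent.Results.MP_4d246d_lc.RandomRules

open MeasureTheory Pool.Agent.MP4d246d.Rand

/-- A randomised pivot rule is a random deterministic pivot rule with unlimited memory: a family of
such rules `ρ ω`, and of start vertices `v₀ ω`, where `ω` has the distribution `μ`. For each
`n ≥ 2 ^ 224` there is one finite family `f 0, …, f m` of abstract objective functions on the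
`n`-cube such that every randomised pivot rule makes at least `n ^ (log₂ n / 125)` pivots with a
probability that is, on average over the family, at least `1 - 2 ^ (-n ^ (1 / 12))`; so it is at
least this for some member of the family. -/
theorem result (n : ℕ) (hn : 2 ^ 224 ≤ n) :
    ∃ (m : ℕ) (f : Fin (m + 1) → Vertex n → ℝ), (∀ i, AbstractObjective (f i)) ∧
      ∀ {Ω : Type*} [MeasurableSpace Ω] (μ : Measure Ω) [IsProbabilityMeasure μ]
        (ρ : Ω → PivotRule n) (v₀ : Ω → Vertex n),
        ENNReal.ofReal (1 - 2 ^ (-(n : ℝ) ^ (1 / 12 : ℝ))) * (m + 1) ≤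
          ∑ i, μ {ω | AtLeast ((n : ℝ) ^ (Real.logb 2 n / 125)) (ρ ω) (f i) (v₀ ω)} ∧
        ∃ i, ENNReal.ofReal (1 - 2 ^ (-(n : ℝ) ^ (1 / 12 : ℝ))) ≤
          μ {ω | AtLeast ((n : ℝ) ^ (Real.logb 2 n / 125)) (ρ ω) (f i) (v₀ ω)} :=
  main n hn

end Pool.Agent.Results.MP_4d246d_lc.RandomRules
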